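import Mathlib

namespace Pool.Agent.Results.MP_d6d41b_al.StrongNotTransitive

section defs
variable {S : Type} [Semigroup S]

/-- `S` has an identity element. -/
def HasIdentity (S : Type) [Semigroup S] : Prop := ∃ e : S, ∀ x : S, e * x = x ∧ x * e = x

/-- Membership in `S¹`, realised inside `S` with a new identity adjoined: all elements if `S` has
no identity, the elements of `S` if it has one. -/
def InS1 (g : WithOne S) : Prop := HasIdentity S → g ≠ 1

/-- Strong o-conjugacy. -/
def SOConj (a b : S) : Prop :=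
  ∃ g h : WithOne S, InS1 g ∧ InS1 h ∧ g * h * g = g ∧ h * g * h = h ∧
    (a : WithOne S) * g = g * (b : WithOne S) ∧ (b : WithOne S) * h = h * (a : WithOne S)

/-- Every element `x` satisfies `x = x y x` for some `y`. -/
def IsRegularSemigroup (S : Type) [Semigroup S] : Prop := ∀ x : S, ∃ y : S, x = x * y * x

end defs

/-- The underlying set. -/
abbrev X : Type := ℕ ⊕ (ℕ × ℕ)

/-- A ray with paths of lengths `len l` leading to its origin (and unused points). -/
def alg (len : ℕ → ℕ) : X → X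
  | Sum.inl n => Sum.inl (n + 1)
  | Sum.inr (_, 0) => Sum.inl 0
  | Sum.inr (l, (j + 1)) => if j + 1 < len l then Sum.inr (l, j) else Sum.inl 1

/-- The map sending the path `l` to the path `σ l`. -/
def mp (len σ : ℕ → ℕ) : X → X
  | Sum.inl n => Sum.inl n
  | Sum.inr (l, j) => if j < len l then Sum.inr (σ l, j) else Sum.inl 0

theorem mp_hom (len len' σ : ℕ → ℕ) (h1 : ∀ l, 1 ≤ len l) (h2 : ∀ l, len l ≤ len' (σ l))
    (x : X) : alg len' (mp len σ x) = mp len σ (alg len x) := by
  rcases x with n | ⟨l, _ | j⟩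
  · rfl
  · have : (0 : ℕ) < len l := h1 l
    simp [alg, mp, this]
  · by_cases hj : j + 1 < len l
    · have h3 : j + 1 < len' (σ l) := lt_of_lt_of_le hj (h2 l)
      have h4 : j < len l := by omega
      simp [alg, mp, hj, h3, h4]
    · simp [alg, mp, hj]

theorem mp_mp (len len' σ τ : ℕ → ℕ) (h2 : ∀ l, len l ≤ len' (σ l)) (h3 : ∀ l, τ (σ l) = l)
    (x : X) : mp len σ (mp len' τ (mp len σ x)) = mp len σ x := by
  rcases x with n | ⟨l, j⟩
  · rfl
  · by_cases hj : j < len l
    · have h4 : j < len' (σ l) := lt_of_lt_of_le hj (h2 l)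
      simp [mp, hj, h4, h3]
    · simp [mp, hj]

theorem mp_mp' (len len' σ τ : ℕ → ℕ) (h1 : ∀ l, len' l ≤ len (τ l))
    (h2 : ∀ l, len l ≤ len' (σ l)) (h3 : ∀ l, τ (σ l) = l)
    (x : X) : mp len' τ (mp len σ (mp len' τ x)) = mp len' τ x := by
  rcases x with n | ⟨l, j⟩
  · rfl
  · by_cases hj : j < len' l
    · have h4 : j < len (τ l) := lt_of_lt_of_le hj (h1 l)
      have h5 : j < len' (σ (τ l)) := lt_of_lt_of_le h4 (h2 _)
      simp [mp, hj, h4, h5, h3]
    · simp [mp, hj]

/-! ### Preimages -/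

theorem pre_inr (len : ℕ → ℕ) (z : X) (m j : ℕ) (h : alg len z = Sum.inr (m, j)) :
    z = Sum.inr (m, j + 1) ∧ j + 1 < len m := by
  rcases z with n | ⟨l, _ | i⟩
  · simp [alg] at h
  · simp [alg] at h
  · by_cases hi : i + 1 < len l
    · simp only [alg, hi, if_true, Sum.inr.injEq, Prod.mk.injEq] at h
      obtain ⟨rfl, rfl⟩ := h
      exact ⟨rfl, hi⟩
    · simp [alg, hi] at h

theorem pre_inl_zero (len : ℕ → ℕ) (z : X) (h : alg len z = Sum.inl 0) :
    ∃ l, z = Sum.inr (l, 0) := by
  rcases z with n | ⟨l, _ | i⟩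
  · simp [alg] at h
  · exact ⟨l, rfl⟩
  · by_cases hi : i + 1 < len l
    · simp [alg, hi] at h
    · simp [alg, hi] at h

theorem iter_inr (len : ℕ → ℕ) (N : ℕ) (z : X) (m j : ℕ) (h : (alg len)^[N] z = Sum.inr (m, j)) :
    z = Sum.inr (m, j + N) ∧ (N = 0 ∨ j + N < len m) := by
  induction N generalizing j with
  | zero => exact ⟨h, Or.inl rfl⟩
  | succ N ih =>
    rw [Function.iterate_succ_apply'] at h
    obtain ⟨h1, h2⟩ := pre_inr len _ m j h
    obtain ⟨h3, h4⟩ := ih _ h1
    refine ⟨?_, Or.inr ?_⟩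
    · rw [h3]; congr 2; omega
    · rcases h4 with h4 | h4
      · rw [h4]; exact h2
      · omega

theorem iter_inl_zero (len : ℕ → ℕ) (hlen : ∀ l, 1 ≤ len l) (N : ℕ) (z : X)
    (h : (alg len)^[N + 1] z = Sum.inl 0) : ∃ l, z = Sum.inr (l, N) ∧ N < len l := by
  rw [Function.iterate_succ_apply'] at h
  obtain ⟨l, hl⟩ := pre_inl_zero len _ h
  obtain ⟨h3, h4⟩ := iter_inr len N z l 0 hl
  refine ⟨l, by rw [h3, zero_add], ?_⟩
  rcases h4 with h4 | h4
  · rw [h4]; exact hlen l
  · omega

theorem iter_path (len : ℕ → ℕ) (k l j : ℕ) (h : j + k < len l) :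
    (alg len)^[k] (Sum.inr (l, j + k)) = Sum.inr (l, j) := by
  induction k with
  | zero => rfl
  | succ k ih =>
    rw [Function.iterate_succ_apply]
    have h1 : alg len (Sum.inr (l, j + (k + 1))) = Sum.inr (l, j + k) := by
      show (if j + k + 1 < len l then _ else _) = _
      rw [if_pos (by omega)]
      rfl
    rw [h1]
    exact ih (by omega)

theorem iter_to_zero (len : ℕ → ℕ) (l j : ℕ) (h : j < len l) :
    (alg len)^[j + 1] (Sum.inr (l, j)) = Sum.inl 0 := by
  rw [Function.iterate_succ_apply']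
  have := iter_path len j l 0 (by omega)
  rw [zero_add] at this
  rw [this]
  rfl

theorem iter_ray (len : ℕ → ℕ) (i n : ℕ) : (alg len)^[n] (Sum.inl i) = Sum.inl (i + n) := by
  induction n with
  | zero => rfl
  | succ n ih => rw [Function.iterate_succ_apply', ih]; rfl

theorem hom_iter (len len' : ℕ → ℕ) (p : X → X) (hp : ∀ x, alg len' (p x) = p (alg len x))
    (n : ℕ) (x : X) : (alg len')^[n] (p x) = p ((alg len)^[n] x) := by
  induction n with
  | zero => rfl
  | succ n ih => rw [Function.iterate_succ_apply', ih, hp, Function.iterate_succ_apply']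

/-- A homomorphism maps the origin to the ray. -/
theorem hom_origin (len len' : ℕ → ℕ) (hunb : ∀ B, ∃ l, B < len l)
    (p : X → X) (hp : ∀ x, alg len' (p x) = p (alg len x)) :
    ∃ i, ∀ n, p (Sum.inl n) = Sum.inl (i + n) := by
  have h0 : ∃ i, p (Sum.inl 0) = Sum.inl i := by
    rcases h : p (Sum.inl 0) with i | ⟨m, j⟩
    · exact ⟨i, rfl⟩
    · exfalso
      obtain ⟨l, hl⟩ := hunb (len' m + 1)
      have h1 := hom_iter len len' p hp (len' m + 1) (Sum.inr (l, len' m))
      rw [iter_to_zero len l (len' m) (by omega), h] at h1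
      obtain ⟨-, h2⟩ := iter_inr len' _ _ _ _ h1
      omega
  obtain ⟨i, hi⟩ := h0
  refine ⟨i, fun n => ?_⟩
  have h1 := hom_iter len len' p hp n (Sum.inl 0)
  rw [hi, iter_ray, iter_ray, zero_add] at h1
  exact h1.symm

def lenA (l : ℕ) : ℕ := 2 * l + 2
def lenB (l : ℕ) : ℕ := l + 1
def lenC (l : ℕ) : ℕ := 2 * l + 1

theorem no_common_retract (p q : X → X) (hp : ∀ x, alg lenC (p x) = p (alg lenA x))
    (hq : ∀ x, alg lenA (q x) = q (alg lenC x)) (hpqp : ∀ x, p (q (p x)) = p x) : False := by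
  obtain ⟨i, hi⟩ := hom_origin lenA lenC (fun B => ⟨B, by simp [lenA]; omega⟩) p hp
  obtain ⟨k, hk⟩ := hom_origin lenC lenA (fun B => ⟨B, by simp [lenC]; omega⟩) q hq
  have hik : i + k = 0 := by
    have h1 := hpqp (Sum.inl 0)
    rw [hi, hk, hi] at h1
    have h2 := Sum.inl.inj h1
    omega
  have hi0 : i = 0 := by omega
  have hk0 : k = 0 := by omega
  subst hi0
  subst hk0
  have he0 : q (p (Sum.inl 0)) = Sum.inl 0 := by rw [hi, hk]
  have hee : ∀ x, q (p (q (p x))) = q (p x) := fun x => by rw [hpqp]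
  have hehom : ∀ x, alg lenA (q (p x)) = q (p (alg lenA x)) := fun x => by rw [hq, hp]
  -- a fixed top of a path
  have hx : (alg lenA)^[1 + 1] (Sum.inr (0, 1)) = Sum.inl 0 := iter_to_zero lenA 0 1 (by decide)
  have h1 := hom_iter lenA lenA (fun x => q (p x)) hehom 2 (Sum.inr (0, 1))
  rw [hx, he0] at h1
  obtain ⟨l, hl, hl'⟩ := iter_inl_zero lenA (fun l => by simp [lenA]) 1 _ h1
  have hl2 : q (p (Sum.inr (0, 1))) = Sum.inr (l, 1) := hl
  have h2 := hom_iter lenA lenA (fun x => q (p x)) hehom (2 * l) (Sum.inr (l, 1 + 2 * l))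
  rw [iter_path lenA (2 * l) l 1 (by simp [lenA]; omega)] at h2
  have h3 : q (p (Sum.inr (l, 1))) = Sum.inr (l, 1) := by rw [← hl2, hee]
  have h4 : (alg lenA)^[2 * l] (q (p (Sum.inr (l, 1 + 2 * l)))) = Sum.inr (l, 1) := h2.trans h3
  obtain ⟨h5, -⟩ := iter_inr lenA _ _ _ _ h4
  -- its image in the second algebra
  have h6 := hom_iter lenA lenC p hp (1 + 2 * l + 1) (Sum.inr (l, 1 + 2 * l))
  rw [iter_to_zero lenA l (1 + 2 * l) (by simp [lenA]; omega), hi 0] at h6
  obtain ⟨m, hm, hm'⟩ := iter_inl_zero lenC (fun l => by simp [lenC]) (1 + 2 * l) _ h6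
  have h7 : alg lenC (Sum.inr (m, 1 + 2 * l + 1)) = Sum.inr (m, 1 + 2 * l) := by
    show (if 1 + 2 * l + 1 < lenC m then _ else _) = _
    rw [if_pos]
    simp only [lenC] at hm' ⊢
    omega
  have h8 := hq (Sum.inr (m, 1 + 2 * l + 1))
  rw [h7, ← hm, h5] at h8
  obtain ⟨-, h9⟩ := pre_inr lenA _ _ _ h8
  simp only [lenA] at h9
  omega

/-! ### The full transformation semigroup -/

abbrev T : Type := Function.End X

theorem hasId : HasIdentity T := ⟨1, fun x => ⟨one_mul x, mul_one x⟩⟩

theorem regular : IsRegularSemigroup T := by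
  intro f
  have hne : Nonempty X := ⟨Sum.inl 0⟩
  refine ⟨Function.invFun (f : X → X), ?_⟩
  funext x
  show f x = f (Function.invFun f (f x))
  exact (Function.invFun_eq (f := (f : X → X)) ⟨x, rfl⟩).symm

theorem soconj_of (a b g h : T) (h1 : ∀ x, g (h (g x)) = g x) (h2 : ∀ x, h (g (h x)) = h x)
    (h3 : ∀ x, a (g x) = g (b x)) (h4 : ∀ x, b (h x) = h (a x)) : SOConj a b := by
  refine ⟨(g : WithOne T), (h : WithOne T), fun _ => WithOne.coe_ne_one,
    fun _ => WithOne.coe_ne_one, ?_, ?_, ?_, ?_⟩ <;> simp only [← WithOne.coe_mul, WithOne.coe_inj]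
  · funext x; exact h1 x
  · funext x; exact h2 x
  · funext x; exact h3 x
  · funext x; exact h4 x

def a : T := alg lenA
def b : T := alg lenB
def c : T := alg lenC

theorem so_ab : SOConj a b := by
  apply soconj_of a b (mp lenB (fun m => m / 2)) (mp lenA (fun l => 2 * l + 1))
  · exact mp_mp' lenA lenB (fun l => 2 * l + 1) (fun m => m / 2)
      (fun l => by simp only [lenA, lenB]; omega) (fun l => by simp only [lenA, lenB]; omega)
      (fun l => by show (2 * l + 1) / 2 = l; omega)
  · exact mp_mp lenA lenB (fun l => 2 * l + 1) (fun m => m / 2)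
      (fun l => by simp only [lenA, lenB]; omega)
      (fun l => by show (2 * l + 1) / 2 = l; omega)
  · exact mp_hom lenB lenA (fun m => m / 2) (fun l => by simp [lenB])
      (fun l => by simp only [lenA, lenB]; omega)
  · exact mp_hom lenA lenB (fun l => 2 * l + 1) (fun l => by simp [lenA])
      (fun l => by simp only [lenA, lenB]; omega)

theorem so_bc : SOConj b c := by
  apply soconj_of b c (mp lenC (fun l => 2 * l)) (mp lenB (fun m => (m + 1) / 2))
  · exact mp_mp lenC lenB (fun l => 2 * l) (fun m => (m + 1) / 2)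
      (fun l => by simp only [lenC, lenB]; omega)
      (fun l => by show (2 * l + 1) / 2 = l; omega)
  · exact mp_mp' lenC lenB (fun l => 2 * l) (fun m => (m + 1) / 2)
      (fun l => by simp only [lenC, lenB]; omega) (fun l => by simp only [lenC, lenB]; omega)
      (fun l => by show (2 * l + 1) / 2 = l; omega)
  · exact mp_hom lenC lenB (fun l => 2 * l) (fun l => by simp [lenC])
      (fun l => by simp only [lenC, lenB]; omega)
  · exact mp_hom lenB lenC (fun m => (m + 1) / 2) (fun l => by simp [lenB])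
      (fun l => by simp only [lenC, lenB]; omega)

theorem not_so_ac : ¬ SOConj a c := by
  rintro ⟨g, h, hg, hh, h1, h2, h3, h4⟩
  have hg' := hg hasId
  have hh' := hh hasId
  revert hg' hh' h1 h2 h3 h4
  refine WithOne.cases_on g (fun _ _ _ _ h => absurd rfl h) (fun g => ?_)
  refine WithOne.cases_on h (fun _ _ _ _ _ h => absurd rfl h) (fun h => ?_)
  intro h1 h2 h3 h4 _ _
  simp only [← WithOne.coe_mul, WithOne.coe_inj] at h1 h2 h3 h4
  exact no_common_retract h g (fun x => congrFun h4 x) (fun x => congrFun h3 x)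
    (fun x => congrFun h2 x)

theorem result : ∃ (S : Type) (_ : Semigroup S), IsRegularSemigroup S ∧
    ∃ a b c : S, SOConj a b ∧ SOConj b c ∧ ¬ SOConj a c :=
  ⟨T, inferInstance, regular, a, b, c, so_ab, so_bc, not_so_ac⟩

end Pool.Agent.Results.MP_d6d41b_al.StrongNotTransitive
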